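import Pool.Agent.GT.StmtsC

open Finset

namespace Pool.Agent.GT.H30

/-- the inverse as a monoid homomorphism -/
noncomputable def fi : ℕ →* ℝ where
  toFun n := (n : ℝ)⁻¹
  map_one' := by simp
  map_mul' := by
    intro a b
    push_cast
    rw [mul_inv]

theorem fi_apply (n : ℕ) : fi n = (n : ℝ)⁻¹ := rfl

theorem nn_pos {r : Finset ℕ} (hr : ∀ p ∈ r, p.Prime) : 0 < nn r :=
  prod_pos fun p hp => (hr p hp).pos

theorem gg_nonneg {r : Finset ℕ} (hr : ∀ p ∈ r, p.Prime) : 0 ≤ gg r := by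
  refine prod_nonneg fun p hp => ?_
  have h : (1 : ℝ) ≤ p := by exact_mod_cast (hr p hp).one_lt.le
  exact div_nonneg zero_le_one (by linarith)

theorem sum_class (r S : Finset ℕ) (hr : ∀ p ∈ r, p.Prime)
    (hS : ∀ n ∈ S, n ≠ 0 ∧ n.primeFactors = r) : ∑ n ∈ S, (n : ℝ)⁻¹ ≤ gg r := by
  have hlt : ∀ {p : ℕ}, p.Prime → ‖fi p‖ < 1 := by
    intro p hp
    rw [fi_apply, norm_inv, Real.norm_natCast]
    exact inv_lt_one_of_one_lt₀ (by exact_mod_cast hp.one_lt)
  have h := (EulerProduct.summable_and_hasSum_factoredNumbers_prod_filter_prime_geometric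
    (f := fi) hlt r).2
  have hdiv : ∀ n ∈ S, nn r ∣ n := fun n hn => by
    rw [← (hS n hn).2]; exact Nat.prod_primeFactors_dvd n
  have hpos : 0 < nn r := nn_pos hr
  have h1 : ∑ n ∈ S, (n : ℝ)⁻¹ = (nn r : ℝ)⁻¹ * ∑ n ∈ S, ((n / nn r : ℕ) : ℝ)⁻¹ := by
    rw [mul_sum]
    refine sum_congr rfl fun n hn => ?_
    obtain ⟨k, rfl⟩ := hdiv n hn
    rw [Nat.mul_div_cancel_left _ hpos]
    push_cast
    rw [mul_inv]
  have hmem : ∀ n ∈ S, n / nn r ∈ Nat.factoredNumbers r := by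
    intro n hn
    obtain ⟨h0, h2⟩ := hS n hn
    obtain ⟨k, hk⟩ := hdiv n hn
    have hk0 : k ≠ 0 := by
      rintro rfl
      exact h0 (by simpa using hk)
    have hkd : k ∣ n := ⟨nn r, by rw [hk, mul_comm]⟩
    rw [hk, Nat.mul_div_cancel_left _ hpos]
    exact Nat.mem_factoredNumbers_of_primeFactors_subset hk0
      ((Nat.primeFactors_mono hkd h0).trans h2.le)
  have h2 : ∑ n ∈ S, ((n / nn r : ℕ) : ℝ)⁻¹ ≤ ∏ p ∈ r with p.Prime, (1 - fi p)⁻¹ := by
    classical
    set e : ↥S → Nat.factoredNumbers r := fun n => ⟨n.1 / nn r, hmem n.1 n.2⟩ with he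
    have hinj : Function.Injective e := by
      intro a b hab
      have hab' : a.1 / nn r = b.1 / nn r := congrArg Subtype.val hab
      apply Subtype.ext
      rw [← Nat.div_mul_cancel (hdiv a.1 a.2), ← Nat.div_mul_cancel (hdiv b.1 b.2), hab']
    calc ∑ n ∈ S, ((n / nn r : ℕ) : ℝ)⁻¹ = ∑ n : ↥S, fi (e n) := by
          rw [← sum_coe_sort]; rfl
      _ = ∑ m ∈ univ.image e, fi m := by
          rw [sum_image (fun a _ b _ hab => hinj hab)]
      _ ≤ _ := sum_le_hasSum _ (fun m _ => by rw [fi_apply]; positivity) h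
  have h3 : (nn r : ℝ)⁻¹ * ∏ p ∈ r with p.Prime, (1 - fi p)⁻¹ = gg r := by
    rw [filter_true_of_mem hr, nn, Nat.cast_prod, ← prod_inv_distrib, ← prod_mul_distrib, gg]
    refine prod_congr rfl fun p hp => ?_
    have hp1 : (1 : ℝ) < p := by exact_mod_cast (hr p hp).one_lt
    rw [fi_apply]
    have h0 : (p : ℝ) ≠ 0 := by linarith
    have h4 : (p : ℝ) - 1 ≠ 0 := by linarith
    rw [← mul_inv, mul_sub, mul_one, mul_inv_cancel₀ h0, one_div]
  rw [h1, ← h3]
  exact mul_le_mul_of_nonneg_left h2 (by positivity)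

theorem c_glb : GlbStmt := by
  intro W R hW hR
  classical
  set Q : Finset ℕ := (range R).filter Nat.Prime with hQ
  set V : Finset ℕ := Q.filter (· ∣ W) with hV
  have hQp : ∀ p ∈ Q, p.Prime := fun p hp => (mem_filter.1 hp).2
  have hVp : ∀ p ∈ V, p.Prime := fun p hp => hQp p (mem_filter.1 hp).1
  have hPp : ∀ p ∈ PP W R, p.Prime := fun p hp => (mem_filter.1 hp).2.1
  -- step 1
  have s1 : Real.log R ≤ ∑ n ∈ Icc 1 (R - 1), (n : ℝ)⁻¹ := by
    have h := log_add_one_le_harmonic (R - 1)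
    rw [Nat.sub_add_cancel (by omega)] at h
    refine h.trans (le_of_eq ?_)
    rw [harmonic_eq_sum_Icc]
    push_cast
    rfl
  -- step 2
  have s2 : ∑ n ∈ Icc 1 (R - 1), (n : ℝ)⁻¹ ≤ ∑ r ∈ lv Q R, gg r := by
    have hmaps : ∀ n ∈ Icc 1 (R - 1), n.primeFactors ∈ lv Q R := by
      intro n hn
      rw [mem_Icc] at hn
      have hn0 : n ≠ 0 := by omega
      refine mem_filter.2 ⟨mem_powerset.2 fun p hp => ?_, ?_⟩
      · have hpn : p ≤ n := Nat.le_of_mem_primeFactors hp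
        exact mem_filter.2 ⟨mem_range.2 (by omega), Nat.prime_of_mem_primeFactors hp⟩
      · have : nn n.primeFactors ≤ n :=
          Nat.le_of_dvd (by omega) (Nat.prod_primeFactors_dvd n)
        omega
    rw [← sum_fiberwise_of_maps_to hmaps]
    refine sum_le_sum fun r hr => ?_
    refine sum_class r _ (fun p hp => hQp p (mem_powerset.1 (mem_filter.1 hr).1 hp)) ?_
    intro n hn
    rw [mem_filter, mem_Icc] at hn
    exact ⟨by omega, hn.2⟩
  -- step 3
  have s3 : ∑ r ∈ lv Q R, gg r ≤ (∑ l ∈ V.powerset, gg l) * GG (PP W R) R := by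
    rw [GG, sum_mul_sum, ← sum_product']
    have hinj : Set.InjOn (fun r : Finset ℕ => (r.filter (· ∣ W), r.filter (¬ · ∣ W)))
        (lv Q R : Set (Finset ℕ)) := by
      intro a _ b _ hab
      have h1 : a.filter (· ∣ W) = b.filter (· ∣ W) := congrArg Prod.fst hab
      have h2 : a.filter (¬ · ∣ W) = b.filter (¬ · ∣ W) := congrArg Prod.snd hab
      rw [← filter_union_filter_not_eq (· ∣ W) a, ← filter_union_filter_not_eq (· ∣ W) b, h1, h2]
    have hmul : ∀ r : Finset ℕ, gg r = gg (r.filter (· ∣ W)) * gg (r.filter (¬ · ∣ W)) := by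
      intro r
      exact (prod_filter_mul_prod_filter_not r (· ∣ W) _).symm
    have hsub : (lv Q R).image (fun r : Finset ℕ => (r.filter (· ∣ W), r.filter (¬ · ∣ W))) ⊆
        V.powerset ×ˢ lv (PP W R) R := by
      intro x hx
      obtain ⟨r, hr, rfl⟩ := mem_image.1 hx
      have hrQ : r ⊆ Q := mem_powerset.1 (mem_filter.1 hr).1
      have hrR : nn r < R := (mem_filter.1 hr).2
      refine mem_product.2 ⟨mem_powerset.2 (filter_subset_filter _ hrQ), mem_filter.2
        ⟨mem_powerset.2 fun p hp => ?_, ?_⟩⟩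
      · obtain ⟨hp1, hp2⟩ := mem_filter.1 hp
        have h := mem_filter.1 (hrQ hp1)
        exact mem_filter.2 ⟨h.1, h.2, hp2⟩
      · refine lt_of_le_of_lt (Nat.le_of_dvd (nn_pos fun p hp => hQp p (hrQ hp)) ?_) hrR
        exact prod_dvd_prod_of_subset _ _ _ (filter_subset _ _)
    calc ∑ r ∈ lv Q R, gg r = ∑ r ∈ lv Q R,
          gg (r.filter (· ∣ W)) * gg (r.filter (¬ · ∣ W)) := sum_congr rfl fun r _ => hmul r
      _ = ∑ x ∈ (lv Q R).image (fun r : Finset ℕ => (r.filter (· ∣ W), r.filter (¬ · ∣ W))),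
          gg x.1 * gg x.2 := by rw [sum_image hinj]
      _ ≤ ∑ x ∈ V.powerset ×ˢ lv (PP W R) R, gg x.1 * gg x.2 := by
          refine sum_le_sum_of_subset_of_nonneg hsub fun x hx _ => ?_
          rw [mem_product] at hx
          exact mul_nonneg (gg_nonneg fun p hp => hVp p (mem_powerset.1 hx.1 hp))
            (gg_nonneg fun p hp => hPp p (mem_powerset.1 (mem_filter.1 hx.2).1 hp))
  have hW0 : (0 : ℝ) < W := by exact_mod_cast hW
  have ht0 : (0 : ℝ) < W.totient := by exact_mod_cast Nat.totient_pos.2 hW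
  have hterm : ∀ p : ℕ, p.Prime → 1 + 1 / ((p : ℝ) - 1) = (1 - (p : ℝ)⁻¹)⁻¹ := by
    intro p hp
    have hp1 : (1 : ℝ) < p := by exact_mod_cast hp.one_lt
    have h0 : (p : ℝ) ≠ 0 := by linarith
    have h4 : (p : ℝ) - 1 ≠ 0 := by linarith
    have h5 : 1 - (p : ℝ)⁻¹ = ((p : ℝ) - 1) / p := by field_simp
    rw [h5, inv_div]
    field_simp
    ring
  have s4 : ∑ l ∈ V.powerset, gg l ≤ W / W.totient := by
    have h1 : ∑ l ∈ V.powerset, gg l = ∏ p ∈ V, (1 - (p : ℝ)⁻¹)⁻¹ := by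
      simp only [gg]
      rw [← prod_one_add]
      exact prod_congr rfl fun p hp => hterm p (hVp p hp)
    have h2 : ∏ p ∈ V, (1 - (p : ℝ)⁻¹)⁻¹ ≤ ∏ p ∈ W.primeFactors, (1 - (p : ℝ)⁻¹)⁻¹ := by
      have hsub : V ⊆ W.primeFactors := by
        intro p hp
        exact Nat.mem_primeFactors.2 ⟨hVp p hp, (mem_filter.1 hp).2, by omega⟩
      have h1le : ∀ p ∈ W.primeFactors, (1 : ℝ) ≤ (1 - (p : ℝ)⁻¹)⁻¹ := by
        intro p hp
        rw [← hterm p (Nat.prime_of_mem_primeFactors hp)]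
        have : (1 : ℝ) < p := by exact_mod_cast (Nat.prime_of_mem_primeFactors hp).one_lt
        have : 0 ≤ 1 / ((p : ℝ) - 1) := div_nonneg zero_le_one (by linarith)
        linarith
      rw [← prod_sdiff hsub]
      refine le_mul_of_one_le_left (prod_nonneg fun p hp => zero_le_one.trans (h1le p (hsub hp))) ?_
      calc (1 : ℝ) = ∏ p ∈ W.primeFactors \ V, (1 : ℝ) := by simp
        _ ≤ _ := prod_le_prod (fun _ _ => zero_le_one)
            fun p hp => h1le p (mem_sdiff.1 hp).1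
    have h3 : (W.totient : ℝ) = W * ∏ p ∈ W.primeFactors, (1 - (p : ℝ)⁻¹) := by
      have h := congrArg (fun q : ℚ => (q : ℝ)) (Nat.totient_eq_mul_prod_factors W)
      push_cast at h
      exact h
    rw [h1]
    refine h2.trans (le_of_eq ?_)
    rw [prod_inv_distrib, h3]
    field_simp
  have hG : 0 ≤ GG (PP W R) R := sum_nonneg fun r hr =>
    gg_nonneg fun p hp => hPp p (mem_powerset.1 (mem_filter.1 hr).1 hp)
  have s5 : Real.log R ≤ W / W.totient * GG (PP W R) R :=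
    s1.trans (s2.trans (s3.trans (mul_le_mul_of_nonneg_right s4 hG)))
  calc (W.totient : ℝ) / W * Real.log R ≤ W.totient / W * (W / W.totient * GG (PP W R) R) :=
        mul_le_mul_of_nonneg_left s5 (by positivity)
    _ = GG (PP W R) R := by field_simp

end Pool.Agent.GT.H30
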