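import Pool.Agent.GT.StmtsC

open Finset

namespace Pool.Agent.GT.H30

theorem nn_dvd_iff {a : Finset ℕ} (ha : ∀ p ∈ a, p.Prime) (x : ℕ) :
    nn a ∣ x ↔ ∀ p ∈ a, p ∣ x := by
  constructor
  · intro h p hp
    exact (dvd_prod_of_mem _ hp).trans h
  · intro h
    exact prod_primes_dvd x (fun p hp => (ha p hp).prime) h

theorem c_avd (hCrm : CrmStmt) : AvdStmt := by
  intro σ ι _ _ _ _ B L W b P R N _ z A C hL hP hAC hz
  set Q : Finset ℕ := univ.biUnion fun s => A s ∪ C s with hQ
  set D : ℕ := nn Q with hD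
  have hDD : DD A C = D := rfl
  have hA : ∀ s, A s ⊆ P := fun s => (hAC s).1
  have hC : ∀ s, C s ⊆ P := fun s => (hAC s).2.1
  have hQP : Q ⊆ P := by
    intro p hp
    obtain ⟨s, -, hs⟩ := mem_biUnion.1 hp
    rcases mem_union.1 hs with h | h
    · exact hA s h
    · exact hC s h
  have hQp : ∀ p ∈ Q, p.Prime := fun p hp => hP p (hQP hp)
  have hACp : ∀ s, ∀ p ∈ A s ∪ C s, p.Prime := by
    intro s p hp
    rcases mem_union.1 hp with h | h
    · exact hP p (hA s h)
    · exact hP p (hC s h)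
  -- the size of `D`
  have hDle : D ≤ R ^ (2 * Fintype.card σ) := by
    have hpos : 0 < ∏ s, (nn (A s) * nn (C s)) := prod_pos fun s _ =>
      Nat.mul_pos (prod_pos fun p hp => (hP p (hA s hp)).pos)
        (prod_pos fun p hp => (hP p (hC s hp)).pos)
    have hdvd : D ∣ ∏ s, (nn (A s) * nn (C s)) := by
      rw [hD, nn_dvd_iff hQp]
      intro p hp
      obtain ⟨s, -, hs⟩ := mem_biUnion.1 hp
      refine Dvd.dvd.trans ?_ (dvd_prod_of_mem _ (mem_univ s))
      rcases mem_union.1 hs with h | h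
      · exact (dvd_prod_of_mem (fun p => p) h).trans (dvd_mul_right _ _)
      · exact (dvd_prod_of_mem (fun p => p) h).trans (dvd_mul_left _ _)
    refine (Nat.le_of_dvd hpos hdvd).trans ?_
    calc ∏ s, (nn (A s) * nn (C s)) ≤ ∏ _s : σ, (R * R) :=
          prod_le_prod' fun s _ => Nat.mul_le_mul (hAC s).2.2.1.le (hAC s).2.2.2.le
      _ = R ^ (2 * Fintype.card σ) := by
          rw [prod_const, card_univ, ← pow_two, ← pow_mul]
  -- no overflow
  have key : ∀ (h : ι → Fin D) (s : σ),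
      (((ev L s (fun i => z i + ((h i : ℕ) : ZMod N))).val : ℕ) : ℤ) =
        ((ev L s z).val : ℤ) + ∑ i, L s i * ((h i : ℕ) : ℤ) := by
    intro h s
    obtain ⟨h1, h2⟩ := hz s
    have hb : |∑ i, L s i * ((h i : ℕ) : ℤ)| ≤
        ((B * Fintype.card ι * R ^ (2 * Fintype.card σ) : ℕ) : ℤ) := by
      calc |∑ i, L s i * ((h i : ℕ) : ℤ)| ≤ ∑ i, |L s i * ((h i : ℕ) : ℤ)| :=
            abs_sum_le_sum_abs _ _
        _ ≤ ∑ _i : ι, (B : ℤ) * ((R ^ (2 * Fintype.card σ) : ℕ) : ℤ) := by
            refine sum_le_sum fun i _ => ?_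
            rw [abs_mul]
            refine mul_le_mul (hL s i) ?_ (abs_nonneg _) (by positivity)
            rw [Nat.abs_cast]
            exact_mod_cast (h i).2.le.trans hDle
        _ = _ := by
            rw [sum_const, card_univ, nsmul_eq_mul]
            push_cast
            ring
    rw [abs_le] at hb
    set e : ℤ := ((ev L s z).val : ℤ) + ∑ i, L s i * ((h i : ℕ) : ℤ) with he
    have he0 : 0 ≤ e := by
      have : ((B * Fintype.card ι * R ^ (2 * Fintype.card σ) : ℕ) : ℤ) ≤ ((ev L s z).val : ℤ) := by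
        exact_mod_cast h1
      linarith [hb.1]
    have heN : e < N := by
      have : ((ev L s z).val : ℤ) + ((B * Fintype.card ι * R ^ (2 * Fintype.card σ) : ℕ) : ℤ) <
          N := by exact_mod_cast h2
      linarith [hb.2]
    have hcast : ((e.toNat : ℕ) : ZMod N) = ev L s (fun i => z i + ((h i : ℕ) : ZMod N)) := by
      have h3 : ((e.toNat : ℕ) : ZMod N) = ((e : ℤ) : ZMod N) := by
        rw [← Int.cast_natCast, Int.toNat_of_nonneg he0]
      rw [h3, he]
      push_cast
      rw [ZMod.natCast_zmod_val]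
      simp only [ev, mul_add, sum_add_distrib]
    have hlt : e.toNat < N := by
      have := Int.toNat_of_nonneg he0
      omega
    rw [← hcast, ZMod.val_natCast_of_lt hlt, Int.toNat_of_nonneg he0]
  -- the functions `φ`
  set c : σ → ℤ := fun s => ((ev L s z).val : ℤ) with hc
  classical
  set φ : ℕ → (ι → ℤ) → ℝ := fun p u =>
    if ∀ s ∈ TT A C p, (p : ℤ) ∣ W * (c s + ∑ i, L s i * u i) + b then 1 else 0 with hφ
  have hper : ∀ p ∈ Q, ∀ u v : ι → ℤ, (∀ i, (p : ℤ) ∣ u i - v i) → φ p u = φ p v := by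
    intro p _ u v huv
    have h1 : ∀ s, ((p : ℤ) ∣ W * (c s + ∑ i, L s i * u i) + b ↔
        (p : ℤ) ∣ W * (c s + ∑ i, L s i * v i) + b) := by
      intro s
      have h2 : (p : ℤ) ∣ (W * (c s + ∑ i, L s i * u i) + b) -
          (W * (c s + ∑ i, L s i * v i) + b) := by
        have h3 : (W * (c s + ∑ i, L s i * u i) + b) - (W * (c s + ∑ i, L s i * v i) + b) =
            (W : ℤ) * ∑ i, L s i * (u i - v i) := by
          simp only [mul_sub, sum_sub_distrib]
          ring
        rw [h3]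
        exact Dvd.dvd.mul_left (dvd_sum fun i _ => Dvd.dvd.mul_left (huv i) _) _
      exact dvd_iff_dvd_of_dvd_sub h2
    simp only [hφ, h1]
  have hind : ∀ h : ι → Fin D,
      (if ∀ s, nn (A s ∪ C s) ∣ W * (ev L s (fun i => z i + ((h i : ℕ) : ZMod N))).val + b
        then (1 : ℝ) else 0) = ∏ p ∈ Q, φ p (fun i => ((h i : ℕ) : ℤ)) := by
    intro h
    simp only [hφ]
    rw [prod_ite_zero, prod_const_one]
    refine if_congr ?_ rfl rfl
    have h1 : ∀ s, ((W * (ev L s (fun i => z i + ((h i : ℕ) : ZMod N))).val + b : ℕ) : ℤ) =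
        W * (c s + ∑ i, L s i * ((h i : ℕ) : ℤ)) + b := by
      intro s
      push_cast
      rw [key h s]
    constructor
    · intro h2 p hp s hs
      rw [← h1 s]
      have hps : p ∈ A s ∪ C s := (mem_filter.1 hs).2
      exact_mod_cast (nn_dvd_iff (hACp s) _).1 (h2 s) p hps
    · intro h2 s
      rw [nn_dvd_iff (hACp s)]
      intro p hp
      have h3 := h2 p (mem_biUnion.2 ⟨s, mem_univ s, hp⟩) s (mem_filter.2 ⟨mem_univ s, hp⟩)
      rw [← h1 s] at h3
      exact_mod_cast h3
  have hcrm := hCrm ι Q φ hQp hper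
  have hal : ∀ p, (∑ v : ι → Fin p, φ p (fun i => ((v i : ℕ) : ℤ))) / (p : ℝ) ^ Fintype.card ι =
      al L W b c p (TT A C p) := by
    intro p
    rw [al]
    congr 1
    rw [natCast_card_filter]
    refine sum_congr rfl fun v _ => ?_
    simp only [hφ]
    congr
  have h1 : avb L W b A C z = ∏ p ∈ Q, al L W b c p (TT A C p) := by
    rw [← prod_congr rfl fun p _ => hal p, ← hcrm, avb]
    congr 1
    rw [← sum_congr rfl fun h _ => hind h]
    simp only [card_filter, Nat.cast_sum, Nat.cast_ite, Nat.cast_one, Nat.cast_zero]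
    rfl
  rw [h1]
  refine prod_subset hQP fun p hpP hpQ => ?_
  have h2 : TT A C p = ∅ := by
    refine filter_eq_empty_iff.2 fun s _ hs => hpQ (mem_biUnion.2 ⟨s, mem_univ s, hs⟩)
  have hp0 : (p : ℝ) ≠ 0 := by exact_mod_cast (hP p hpP).ne_zero
  rw [h2, al]
  simp [hp0]

end Pool.Agent.GT.H30
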